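import Pool.Agent.Helper26.MCE.GoalsB

/-!
Project MCE (MP_d8224a_co), packet FOR: probability of being popular for a foreign cluster.
-/

namespace Pool.Agent.Helper70.MCE

open Finset Pool.Agent.Helper87.MC Pool.Agent.Helper26.MCE

variable {G : Type} [AddCommGroup G] [Fintype G]

open Classical in
theorem card_sub (H : AddSubgroup G) :
    (univ.filter fun x : G => x ∈ H).card = Nat.card H := by
  rw [Nat.card_eq_fintype_card, Fintype.card_subtype]

open Classical in
/-- `pop` is periodic. -/
theorem pop_add (D B : Finset G) (H : AddSubgroup G) (t : ℝ) {x h : G} (hx : x ∈ pop D B H t)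
    (hh : h ∈ H) : x + h ∈ pop D B H t := by
  unfold pop at *
  simp only [mem_filter, mem_univ, true_and] at *
  obtain ⟨w, hw, hc⟩ := hx
  refine ⟨w, ?_, hc⟩
  have : w - (x + h) = (w - x) - h := by abel
  rw [this]
  exact H.sub_mem hw hh

open Classical in
/-- The probability that `v'` is popular for `v`. -/
theorem step1 (h1 : G_RES) (h2 : G_POS) (s : ℕ) (V : Type) [Fintype V]
    (K : ℕ → AddSubgroup G) (c : ℕ → V → V) (hK : ∀ i < s, K (i + 1) ≤ K i)
    (hc : ∀ i < s, ∀ v v', c (i + 1) v = c (i + 1) v' → c i v = c i v')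
    (P : Finset G) (v v' : V) (l : ℕ) (hl : l < s) (he : c l v' = c l v)
    (hne : c (l + 1) v' ≠ c (l + 1) v) :
    ((Om s V K).filter fun ω => pos c ω v' - pos c ω v ∈ P).card * Nat.card (K l) ≤
      (P.filter fun x => x ∈ K l).card * (Om s V K).card := by
  obtain ⟨p1, p2, p3, -⟩ := h2 G s V K c hK hc
  have hOm : (Fintype.piFinset fun i : Fin s × V => univ.filter fun x : G => x ∈ K i.1) =
      Om s V K := by
    unfold Om
    congr
  have key := h1 (Fin s × V) G (fun i => univ.filter fun x => x ∈ K i.1)
    (⟨l, hl⟩, c (l + 1) v') (fun _ => True)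
    (fun ω => pos c ω v' - pos c ω v ∈ P) (P.filter fun x => x ∈ K l).card
    (fun _ _ _ _ => Iff.rfl) ?_
  · have hcard : (univ.filter fun x : G => x ∈ K l).card = Nat.card (K l) := card_sub (K l)
    simp only [true_and, Finset.filter_true, card_sub] at key
    rw [hOm] at key
    exact key
  · intro ω hω _
    have hωO : ω ∈ Om s V K := by
      rw [← hOm]
      exact hω
    have hωm : ω (⟨l, hl⟩, c (l + 1) v') ∈ K l := by
      have := (Fintype.mem_piFinset.1 hω) (⟨l, hl⟩, c (l + 1) v')
      simpa using this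
    have ha : pos c ω v' - ω (⟨l, hl⟩, c (l + 1) v') - pos c ω v ∈ K l := by
      have h := p1 ω hωO l hl.le v' v he
      have e : pos c ω v' - ω (⟨l, hl⟩, c (l + 1) v') - pos c ω v =
        (pos c ω v' - pos c ω v) - ω (⟨l, hl⟩, c (l + 1) v') := by abel
      rw [e]
      exact (K l).sub_mem h hωm
    refine Finset.card_le_card_of_injOn
      (fun x => pos c ω v' - ω (⟨l, hl⟩, c (l + 1) v') - pos c ω v + x) ?_ ?_
    · intro x hx
      simp only [coe_filter, mem_filter, mem_univ, true_and, Set.mem_ofPred_eq] at hx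
      obtain ⟨hx1, hx2⟩ := hx
      have e1 := p3 ω ⟨l, hl⟩ x v'
      have e2 := p2 ω ⟨l, hl⟩ (c (l + 1) v') x v (fun h => hne h.symm)
      simp only [coe_filter, Set.mem_ofPred_eq]
      refine ⟨?_, (K l).add_mem ha hx1⟩
      have e3 : pos c ω v' - ω (⟨l, hl⟩, c (l + 1) v') - pos c ω v + x =
        (pos c ω v' - ω (⟨l, hl⟩, c (l + 1) v') + x) - pos c ω v := by abel
      rw [e3]
      have e1' : pos c (Function.update ω (⟨l, hl⟩, c (l + 1) v') x) v' =
        pos c ω v' - ω (⟨l, hl⟩, c (l + 1) v') + x := by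
        convert e1
      have e2' : pos c (Function.update ω (⟨l, hl⟩, c (l + 1) v') x) v = pos c ω v := by
        convert e2
      rw [← e1', ← e2']
      convert hx2 using 2
    · intro x _ y _ hxy
      exact add_left_cancel hxy

open Classical in
theorem goalFOR (h1 : G_RES) (h2 : G_POS) : G_FOR := by
  intro G _ _ s V _ D K f B ρ ρh t L2 c ty m lam hC hF hρ hL2 i hi1 his v
  set P := pop D (B i) (K i) t with hP
  set e : V → ℕ := fun v' => ((Om s V K).filter fun ω => pos c ω v' - pos c ω v ∈ P).card with he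
  set S : Finset V := univ.filter fun v' => i ≤ ty v' ∧ c i v' ≠ c i v with hS
  have p1 := (h2 G s V K c hC.anti hF.ref).1
  have p4 := (h2 G s V K c hC.anti hF.ref).2.2.2
  have hKi : (0 : ℝ) < Nat.card (K i) := by
    have : 0 < Nat.card (K i) := Nat.card_pos
    exact_mod_cast this
  -- double counting
  have A : ∀ ω ∈ (Om s V K).filter (fun ω => Foreign D K B t c ty i ω v),
      ρ i * Nat.card (K i) ≤
        2 * (((S.filter fun v' => pos c ω v' - pos c ω v ∈ P).card : ℝ) * f i) := by
    intro ω hω
    rw [mem_filter] at hω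
    obtain ⟨hωO, v', h3, h4, h5⟩ := hω
    have hlow := hF.low v' i hi1 h3
    have hsub : (univ.filter fun v'' => c i v'' = c i v') ⊆
        S.filter fun v' => pos c ω v' - pos c ω v ∈ P := by
      intro v'' hv''
      simp only [mem_filter, mem_univ, true_and] at hv''
      simp only [hS, mem_filter, mem_univ, true_and]
      refine ⟨⟨?_, ?_⟩, ?_⟩
      · by_contra hlt
        push Not at hlt
        have := hF.single v'' i hlt his.le v' hv''.symm
        rw [this] at h3
        omega
      · rw [hv'']; exact h4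
      · have h6 := p1 ω hωO i his.le v'' v' hv''
        have h7 := pop_add D (B i) (K i) t h5 h6
        have e : pos c ω v' - pos c ω v + (pos c ω v'' - pos c ω v') =
          pos c ω v'' - pos c ω v := by abel
        rw [e] at h7
        exact h7
    have hle : ((univ.filter fun v'' => c i v'' = c i v').card : ℝ) ≤
        ((S.filter fun v' => pos c ω v' - pos c ω v ∈ P).card : ℝ) := by
      exact_mod_cast card_le_card hsub
    have hfi : (0 : ℝ) ≤ f i := Nat.cast_nonneg _
    calc ρ i * Nat.card (K i) ≤ 2 * ((univ.filter fun v'' => c i v'' = c i v').card : ℝ) * f i := hlow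
      _ = 2 * (((univ.filter fun v'' => c i v'' = c i v').card : ℝ) * f i) := by ring
      _ ≤ _ := by
        have := mul_le_mul_of_nonneg_right hle hfi
        linarith
  have B1 : (((Om s V K).filter fun ω => Foreign D K B t c ty i ω v).card : ℝ) *
      (ρ i * Nat.card (K i)) ≤ 2 * ((∑ v' ∈ S, (e v' : ℝ)) * f i) := by
    calc (((Om s V K).filter fun ω => Foreign D K B t c ty i ω v).card : ℝ) *
        (ρ i * Nat.card (K i))
        = ∑ ω ∈ (Om s V K).filter (fun ω => Foreign D K B t c ty i ω v),
          (ρ i * Nat.card (K i)) := by rw [sum_const, nsmul_eq_mul]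
      _ ≤ ∑ ω ∈ (Om s V K).filter (fun ω => Foreign D K B t c ty i ω v),
          2 * (((S.filter fun v' => pos c ω v' - pos c ω v ∈ P).card : ℝ) * f i) :=
          sum_le_sum A
      _ ≤ ∑ ω ∈ Om s V K,
          2 * (((S.filter fun v' => pos c ω v' - pos c ω v ∈ P).card : ℝ) * f i) := by
          apply sum_le_sum_of_subset_of_nonneg (filter_subset _ _)
          intro ω _ _
          positivity
      _ = 2 * ((∑ ω ∈ Om s V K,
          ((S.filter fun v' => pos c ω v' - pos c ω v ∈ P).card : ℝ)) * f i) := by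
          rw [← mul_sum, ← sum_mul]
      _ = 2 * ((∑ v' ∈ S, (e v' : ℝ)) * f i) := by
          congr 2
          simp only [he, card_filter, Nat.cast_sum, Nat.cast_ite, Nat.cast_one, Nat.cast_zero]
          rw [sum_comm]
  -- the leaves with a given common level
  set T : ℕ → Finset V := fun l => univ.filter fun v' => c l v' = c l v ∧ c (l + 1) v' ≠ c (l + 1) v
    with hT
  have hTc : ∀ l < s, ((T l).card : ℝ) * f l ≤ ρ l * Nat.card (K l) := by
    intro l hl
    rcases hF.up v l hl with h | h
    · refine le_trans ?_ h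
      apply mul_le_mul_of_nonneg_right _ (Nat.cast_nonneg _)
      have : T l ⊆ univ.filter fun v' => c l v' = c l v := by
        intro v' hv'
        simp only [hT, mem_filter, mem_univ, true_and] at hv' ⊢
        exact hv'.1
      exact_mod_cast card_le_card this
    · have : T l = ∅ := by
        rw [eq_empty_iff_forall_notMem]
        intro v' hv'
        simp only [hT, mem_filter, mem_univ, true_and] at hv'
        exact hv'.2 (h v' hv'.1)
      rw [this]
      simp only [card_empty, Nat.cast_zero, zero_mul]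
      exact mul_nonneg (hρ l).le (Nat.cast_nonneg _)
  have hST : ∀ v' ∈ S, ∃ l ∈ range i, v' ∈ T l := by
    intro v' hv'
    simp only [hS, mem_filter, mem_univ, true_and] at hv'
    obtain ⟨l, hl, q1, q2, q3, -⟩ := p4 v v' (hF.c0 v v') (by
      rw [hF.cs, hF.cs]
      intro h
      apply hv'.2
      rw [h])
    refine ⟨l, ?_, ?_⟩
    · rw [mem_range]
      by_contra hlt
      push Not at hlt
      exact hv'.2 (q3 i hlt).symm
    · simp only [hT, mem_filter, mem_univ, true_and]
      exact ⟨q1.symm, fun h => q2 h.symm⟩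
  have hee : ∀ l < i, ∀ v' ∈ T l, (e v' : ℝ) * f i * Nat.card (K l) ≤
      L2 * f l * Nat.card (K i) * (Om s V K).card := by
    intro l hl v' hv'
    simp only [hT, mem_filter, mem_univ, true_and] at hv'
    have q1 := step1 h1 h2 s V K c hC.anti hF.ref P v v' l (hl.trans his) hv'.1 hv'.2
    have q1' : (e v' : ℝ) * Nat.card (K l) ≤
      ((P.filter fun x => x ∈ K l).card : ℝ) * (Om s V K).card := by
      have := q1
      exact_mod_cast this
    have q2 := hC.cnt l i hl his
    have q3 : ((P.filter fun x => x ∈ K l).card : ℝ) * f i ≤ L2 * f l * Nat.card (K i) := by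
      exact q2
    calc (e v' : ℝ) * f i * Nat.card (K l) = ((e v' : ℝ) * Nat.card (K l)) * f i := by ring
      _ ≤ (((P.filter fun x => x ∈ K l).card : ℝ) * (Om s V K).card) * f i :=
        mul_le_mul_of_nonneg_right q1' (Nat.cast_nonneg _)
      _ = (((P.filter fun x => x ∈ K l).card : ℝ) * f i) * (Om s V K).card := by ring
      _ ≤ (L2 * f l * Nat.card (K i)) * (Om s V K).card :=
        mul_le_mul_of_nonneg_right q3 (Nat.cast_nonneg _)
  have hTs : ∀ l < i, (∑ v' ∈ T l, (e v' : ℝ)) * f i ≤
      L2 * ρ l * Nat.card (K i) * (Om s V K).card := by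
    intro l hl
    have hKl : (0 : ℝ) < Nat.card (K l) := by
      have : 0 < Nat.card (K l) := Nat.card_pos
      exact_mod_cast this
    have q : ((∑ v' ∈ T l, (e v' : ℝ)) * f i) * Nat.card (K l) ≤
        (L2 * ρ l * Nat.card (K i) * (Om s V K).card) * Nat.card (K l) := by
      calc ((∑ v' ∈ T l, (e v' : ℝ)) * f i) * Nat.card (K l)
          = ∑ v' ∈ T l, (e v' : ℝ) * f i * Nat.card (K l) := by rw [sum_mul, sum_mul]
        _ ≤ ∑ v' ∈ T l, L2 * f l * Nat.card (K i) * (Om s V K).card := sum_le_sum (hee l hl)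
        _ = ((T l).card * f l) * (L2 * Nat.card (K i) * (Om s V K).card) := by
          rw [sum_const, nsmul_eq_mul]; ring
        _ ≤ (ρ l * Nat.card (K l)) * (L2 * Nat.card (K i) * (Om s V K).card) := by
          apply mul_le_mul_of_nonneg_right (hTc l (hl.trans his))
          positivity
        _ = _ := by ring
    exact le_of_mul_le_mul_right q hKl
  have hSs : (∑ v' ∈ S, (e v' : ℝ)) ≤ ∑ l ∈ range i, ∑ v' ∈ T l, (e v' : ℝ) := by
    calc (∑ v' ∈ S, (e v' : ℝ)) ≤ ∑ v' ∈ S, ∑ l ∈ range i, if v' ∈ T l then (e v' : ℝ) else 0 := by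
          apply sum_le_sum
          intro v' hv'
          obtain ⟨l, hl, hvl⟩ := hST v' hv'
          have := single_le_sum (f := fun l => if v' ∈ T l then (e v' : ℝ) else 0)
            (s := range i) (fun l _ => by positivity) hl
          simpa [hvl] using this
      _ ≤ ∑ v' : V, ∑ l ∈ range i, if v' ∈ T l then (e v' : ℝ) else 0 := by
          apply sum_le_sum_of_subset_of_nonneg (subset_univ _)
          intro v' _ _
          positivity
      _ = ∑ l ∈ range i, ∑ v' : V, if v' ∈ T l then (e v' : ℝ) else 0 := sum_comm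
      _ = ∑ l ∈ range i, ∑ v' ∈ T l, (e v' : ℝ) := by
          apply sum_congr rfl
          intro l _
          rw [← sum_filter]
          congr 1
          ext v'
          simp
  have fin : (((Om s V K).filter fun ω => Foreign D K B t c ty i ω v).card : ℝ) *
      (ρ i * Nat.card (K i)) ≤
      (2 * L2 * (∑ l ∈ range i, ρ l) * (Om s V K).card) * Nat.card (K i) := by
    calc (((Om s V K).filter fun ω => Foreign D K B t c ty i ω v).card : ℝ) *
        (ρ i * Nat.card (K i)) ≤ 2 * ((∑ v' ∈ S, (e v' : ℝ)) * f i) := B1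
      _ ≤ 2 * ((∑ l ∈ range i, ∑ v' ∈ T l, (e v' : ℝ)) * f i) := by
        have := mul_le_mul_of_nonneg_right hSs (Nat.cast_nonneg (α := ℝ) (f i))
        linarith
      _ = 2 * ∑ l ∈ range i, (∑ v' ∈ T l, (e v' : ℝ)) * f i := by rw [sum_mul]
      _ ≤ 2 * ∑ l ∈ range i, L2 * ρ l * Nat.card (K i) * (Om s V K).card := by
        have := sum_le_sum (s := range i) (fun l hl => hTs l (mem_range.1 hl))
        linarith
      _ = _ := by
        rw [← sum_mul, ← sum_mul, ← mul_sum]
        ring
  have fin2 : (ρ i * (((Om s V K).filter fun ω => Foreign D K B t c ty i ω v).card : ℝ)) *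
      Nat.card (K i) ≤
      (2 * L2 * (∑ l ∈ range i, ρ l) * (Om s V K).card) * Nat.card (K i) := by
    calc _ = (((Om s V K).filter fun ω => Foreign D K B t c ty i ω v).card : ℝ) *
      (ρ i * Nat.card (K i)) := by ring
      _ ≤ _ := fin
  exact le_of_mul_le_mul_right fin2 hKi

end Pool.Agent.Helper70.MCE
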